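import Pool.Agent.H.MP_20a840_al.O

set_option autoImplicit false

namespace Pool.Agent.Results.MP_20a840_al.No

/-- Every automorphic loop of order `p ^ k` with `p` prime and `k ≥ 1` has an element other
than the identity in its middle nucleus. The last three hypotheses on `mul` say that the inner
mappings `L_{x,y}`, `R_{x,y}`, `T_x` are automorphisms. -/
theorem result :
  ∀ (Q : Type) [Fintype Q] (mul : Q → Q → Q) (e : Q),
    (∀ x, mul e x = x ∧ mul x e = x) →
    (∀ a, Function.Bijective (fun x => mul a x)) →
    (∀ a, Function.Bijective (fun x => mul x a)) →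
    (∀ x y u v a b, mul (mul x y) a = mul x (mul y u) →
        mul (mul x y) b = mul x (mul y v) →
        mul (mul x y) (mul a b) = mul x (mul y (mul u v))) →
    (∀ x y u v a b, mul a (mul y x) = mul (mul u y) x →
        mul b (mul y x) = mul (mul v y) x →
        mul (mul a b) (mul y x) = mul (mul (mul u v) y) x) →
    (∀ x u v a b, mul a x = mul x u → mul b x = mul x v →
        mul (mul a b) x = mul x (mul u v)) →
    ∀ p k : ℕ, p.Prime → 1 ≤ k → Fintype.card Q = p ^ k →
      ∃ a : Q, a ≠ e ∧ ∀ x y, mul (mul x a) y = mul x (mul a y) := by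
  intro Q _ mul e h1 hL hR aL _ aT p k hp hk hc
  let _ : AL.ALoop Q :=
    { mul := mul, one := e, one_mul' := fun x => (h1 x).1, mul_one' := fun x => (h1 x).2,
      bijL := hL, bijR := hR, autL := aL, autT := aT }
  obtain ⟨k, rfl⟩ := Nat.exists_eq_add_of_le' hk
  exact AL.main_nuc hp (by rw [Nat.card_eq_fintype_card, hc])

end Pool.Agent.Results.MP_20a840_al.No
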